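import Mathlib

/-!
# Uniform property (S) does not pass to the bidual

`L₁(0,1)` has uniform property (S): the space can be cut into pieces on which `|y|` has integral at most
`a`, and `z = - y 1_B` works for one of the pieces `B`. Its bidual contains the characters `δ_p` of
`L_∞ = L₁*` (limits along ultrafilters `p` finer than the almost everywhere filter). They are atoms:
`‖w + t δ_p‖ = ‖w‖ + t` as soon as `w` is nonnegative on the indicator functions of small sets of `p`.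
Hence `x = 3/4 δ_p + 1/4 δ_q` and `y = 1/4 δ_p + 3/4 δ_q` satisfy `‖x + z‖ = ‖y + z‖` for `‖z‖ ≤ 1/4`.
-/

open MeasureTheory Filter Topology Set
open scoped ENNReal

namespace Pool.Agent.Results.MP_973dba_an.BidualFails

/-- Uniform property (S): for all `0 < d < 2` and `a > 0` there is `δ > 0` such that any two points
`x`, `y` of the unit sphere at distance at least `d` have some `z` with `‖z‖ ≤ a` and
`|‖x + z‖ - ‖y + z‖| ≥ δ`. -/
def UniformS (X : Type) [NormedAddCommGroup X] : Prop :=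
  ∀ d a : ℝ, 0 < d → d < 2 → 0 < a → ∃ δ : ℝ, 0 < δ ∧ ∀ x y : X, ‖x‖ = 1 → ‖y‖ = 1 →
    d ≤ ‖x - y‖ → ∃ z : X, ‖z‖ ≤ a ∧ δ ≤ |‖x + z‖ - ‖y + z‖|

section Abstract

variable {E : Type*} [NormedAddCommGroup E] [NormedSpace ℝ E]

lemma norm_nonneg' (w : StrongDual ℝ E) : 0 ≤ ‖w‖ := norm_nonneg w

lemma norm_zero' : ‖(0 : StrongDual ℝ E)‖ = 0 := norm_zero

lemma norm_add_smul (w δ : StrongDual ℝ E) (t : ℝ) (ht : 0 ≤ t) (hδ : ‖δ‖ ≤ 1)
    (key : ∀ φ, ‖φ‖ ≤ 1 → ∀ ε, 0 < ε → ∃ φ', ‖φ'‖ ≤ 1 ∧ δ φ' = 1 ∧ w φ ≤ w φ' + ε) :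
    ‖w + t • δ‖ = ‖w‖ + t := by
  apply le_antisymm
  · calc ‖w + t • δ‖ ≤ ‖w‖ + ‖t • δ‖ := norm_add_le _ _
      _ ≤ ‖w‖ + t := by
        rw [norm_smul, Real.norm_of_nonneg ht]
        have := mul_le_mul_of_nonneg_left hδ ht
        linarith
  · set N := ‖w + t • δ‖ with hN
    have key' : ∀ φ : E, ‖φ‖ ≤ 1 → w φ + t ≤ N := by
      intro φ hφ
      refine le_of_forall_pos_le_add fun ε hε => ?_
      obtain ⟨φ', h1, h2, h3⟩ := key φ hφ ε hε
      have h4 : (w + t • δ) φ' = w φ' + t := by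
        change w φ' + t * δ φ' = _
        rw [h2, mul_one]
      have h5 : (w + t • δ) φ' ≤ N := by
        have h6 := (w + t • δ).le_opNorm φ'
        have h7 : ‖w + t • δ‖ * ‖φ'‖ ≤ N * 1 :=
          mul_le_mul_of_nonneg_left h1 (norm_nonneg _)
        rw [mul_one] at h7
        exact (le_abs_self _).trans (h6.trans h7)
      linarith
    have h0 : t ≤ N := by
      have := key' 0 (by simp)
      simpa using this
    have h1 : ‖w‖ ≤ N - t := by
      refine ContinuousLinearMap.opNorm_le_bound _ (by linarith) fun φ => ?_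
      have h2 : ∀ ψ : E, w ψ ≤ (N - t) * ‖ψ‖ := by
        intro ψ
        by_cases hψ : ψ = 0
        · simp [hψ]
        · have hpos : 0 < ‖ψ‖ := norm_pos_iff.2 hψ
          have h3 := key' (‖ψ‖⁻¹ • ψ) (by
            rw [norm_smul, norm_inv, norm_norm, inv_mul_cancel₀ hpos.ne'])
          rw [map_smul, smul_eq_mul] at h3
          have h4 : ‖ψ‖⁻¹ * w ψ ≤ N - t := by linarith
          rwa [inv_mul_le_iff₀ hpos, mul_comm] at h4
      rw [Real.norm_eq_abs, abs_le]
      have h3 := h2 φ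
      have h4 := h2 (-φ)
      rw [map_neg, norm_neg] at h4
      constructor <;> linarith
    linarith

end Abstract

section Dual

variable {Ω : Type} [MeasurableSpace Ω] {μ : Measure Ω} [IsProbabilityMeasure μ]

/-- `φ` is represented by the bounded measurable function `g` -/
def Rep (φ : StrongDual ℝ (Lp ℝ 1 μ)) (g : Ω → ℝ) : Prop :=
  Measurable g ∧ (∃ C, ∀ x, |g x| ≤ C) ∧ ∀ f : Lp ℝ 1 μ, φ f = ∫ x, g x * f x ∂μ

omit [IsProbabilityMeasure μ] in
lemma int_mul (g : Ω → ℝ) (hg : Measurable g) (C : ℝ) (hC : ∀ x, |g x| ≤ C) (f : Lp ℝ 1 μ) :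
    Integrable (fun x => g x * f x) μ :=
  (L1.integrable_coeFn f).bdd_mul hg.aestronglyMeasurable (Eventually.of_forall hC)

omit [IsProbabilityMeasure μ] in
lemma Rep.int {φ : StrongDual ℝ (Lp ℝ 1 μ)} {g : Ω → ℝ} (h : Rep φ g) (f : Lp ℝ 1 μ) :
    Integrable (fun x => g x * f x) μ := by
  obtain ⟨h1, ⟨C, hC⟩, -⟩ := h
  exact int_mul g h1 C hC f

omit [IsProbabilityMeasure μ] in
lemma Rep.sub {φ ψ : StrongDual ℝ (Lp ℝ 1 μ)} {g h : Ω → ℝ} (h1 : Rep φ g) (h2 : Rep ψ h) :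
    Rep (φ - ψ) (fun x => g x - h x) := by
  refine ⟨h1.1.sub h2.1, ?_, fun f => ?_⟩
  · obtain ⟨-, ⟨C, hC⟩, -⟩ := h1
    obtain ⟨-, ⟨D, hD⟩, -⟩ := h2
    exact ⟨C + D, fun x => (abs_sub _ _).trans (add_le_add (hC x) (hD x))⟩
  · rw [_root_.sub_apply, h1.2.2, h2.2.2, ← integral_sub (h1.int f) (h2.int f)]
    congr 1; ext x; ring

omit [IsProbabilityMeasure μ] in
lemma Rep.add {φ ψ : StrongDual ℝ (Lp ℝ 1 μ)} {g h : Ω → ℝ} (h1 : Rep φ g) (h2 : Rep ψ h) :
    Rep (φ + ψ) (fun x => g x + h x) := by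
  refine ⟨h1.1.add h2.1, ?_, fun f => ?_⟩
  · obtain ⟨-, ⟨C, hC⟩, -⟩ := h1
    obtain ⟨-, ⟨D, hD⟩, -⟩ := h2
    exact ⟨C + D, fun x => (abs_add_le _ _).trans (add_le_add (hC x) (hD x))⟩
  · rw [_root_.add_apply, h1.2.2, h2.2.2, ← integral_add (h1.int f) (h2.int f)]
    congr 1; ext x; ring

omit [IsProbabilityMeasure μ] in
lemma Rep.smul {φ : StrongDual ℝ (Lp ℝ 1 μ)} {g : Ω → ℝ} (h1 : Rep φ g) (c : ℝ) :
    Rep (c • φ) (fun x => c * g x) := by
  refine ⟨h1.1.const_mul c, ?_, fun f => ?_⟩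
  · obtain ⟨-, ⟨C, hC⟩, -⟩ := h1
    exact ⟨|c| * C, fun x => by
      rw [abs_mul]; exact mul_le_mul_of_nonneg_left (hC x) (abs_nonneg c)⟩
  · rw [_root_.smul_apply, h1.2.2, smul_eq_mul, ← integral_const_mul]
    congr 1; ext x; ring

omit [IsProbabilityMeasure μ] in
lemma Rep.norm_le {φ : StrongDual ℝ (Lp ℝ 1 μ)} {g : Ω → ℝ} (h1 : Rep φ g) (C : ℝ) (hC0 : 0 ≤ C)
    (hC : ∀ x, |g x| ≤ C) : ‖φ‖ ≤ C := by
  refine ContinuousLinearMap.opNorm_le_bound _ hC0 fun f => ?_
  rw [h1.2.2, L1.norm_eq_integral_norm, ← integral_const_mul]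
  refine (norm_integral_le_integral_norm _).trans
    (integral_mono (h1.int f).norm ((L1.integrable_coeFn f).norm.const_mul C) fun x => ?_)
  change ‖g x * f x‖ ≤ C * ‖f x‖
  rw [norm_mul]
  exact mul_le_mul_of_nonneg_right (hC x) (norm_nonneg _)

/-- every bounded measurable function gives a functional -/
lemma exists_functional (g : Ω → ℝ) (hg : Measurable g) (C : ℝ) (hC : ∀ x, |g x| ≤ C) :
    ∃ φ : StrongDual ℝ (Lp ℝ 1 μ), Rep φ g := by
  have hC0 : 0 ≤ C := by
    rcases isEmpty_or_nonempty Ω with h | ⟨⟨x⟩⟩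
    · exact absurd (measure_univ (μ := μ)) (by simp [Set.eq_empty_of_isEmpty])
    · exact (abs_nonneg _).trans (hC x)
  refine ⟨LinearMap.mkContinuous
    { toFun := fun f => ∫ x, g x * f x ∂μ
      map_add' := fun f h => ?_
      map_smul' := fun c f => ?_ } C fun f => ?_, hg, ⟨C, hC⟩, fun f => rfl⟩
  · rw [← integral_add (int_mul g hg C hC f) (int_mul g hg C hC h)]
    refine integral_congr_ae ?_
    filter_upwards [Lp.coeFn_add f h] with x hx
    rw [hx, Pi.add_apply]; ring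
  · rw [RingHom.id_apply, smul_eq_mul, ← integral_const_mul]
    refine integral_congr_ae ?_
    filter_upwards [Lp.coeFn_smul c f] with x hx
    rw [hx, Pi.smul_apply, smul_eq_mul]; ring
  · change ‖∫ x, g x * f x ∂μ‖ ≤ C * ‖f‖
    rw [L1.norm_eq_integral_norm, ← integral_const_mul]
    refine (norm_integral_le_integral_norm _).trans
      (integral_mono (int_mul g hg C hC f).norm
        ((L1.integrable_coeFn f).norm.const_mul C) fun x => ?_)
    change ‖g x * f x‖ ≤ C * ‖f x‖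
    rw [norm_mul]
    exact mul_le_mul_of_nonneg_right (hC x) (norm_nonneg _)

/-- the indicator function of a set in `L₁` -/
noncomputable def one (s : Set Ω) (hs : MeasurableSet s) : Lp ℝ 1 μ :=
  indicatorConstLp 1 hs (measure_ne_top μ s) (1 : ℝ)

lemma one_norm (s : Set Ω) (hs : MeasurableSet s) : ‖(one s hs : Lp ℝ 1 μ)‖ = μ.real s := by
  rw [one, norm_indicatorConstLp one_ne_zero ENNReal.one_ne_top]
  simp

lemma int_one (g : Ω → ℝ) (s : Set Ω) (hs : MeasurableSet s) :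
    ∫ x, g x * (one s hs : Lp ℝ 1 μ) x ∂μ = ∫ x in s, g x ∂μ := by
  rw [← integral_indicator hs]
  refine integral_congr_ae ?_
  filter_upwards [indicatorConstLp_coeFn (p := 1) (hs := hs) (hμs := measure_ne_top μ s)
    (c := (1 : ℝ))] with x hx
  rw [one, hx]
  by_cases h : x ∈ s <;> simp [h]

/-- the Riesz representation theorem for `L₁` -/
lemma exists_rep (φ : StrongDual ℝ (Lp ℝ 1 μ)) :
    ∃ g : Ω → ℝ, Rep φ g ∧ ∀ x, |g x| ≤ ‖φ‖ := by
  have hm : ∀ f : Lp ℝ 2 μ, MemLp f 1 μ := fun f =>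
    (Lp.memLp f).mono_exponent (by norm_num)
  let L : Lp ℝ 2 μ →L[ℝ] ℝ := LinearMap.mkContinuous
    { toFun := fun f => φ ((hm f).toLp f)
      map_add' := fun f h => by
        rw [← map_add]
        congr 1
        apply Lp.ext
        filter_upwards [(hm (f + h)).coeFn_toLp, (hm f).coeFn_toLp, (hm h).coeFn_toLp,
          Lp.coeFn_add f h, Lp.coeFn_add ((hm f).toLp f) ((hm h).toLp h)] with x h1 h2 h3 h4 h5
        rw [h1, h4, h5, Pi.add_apply, Pi.add_apply, h2, h3]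
      map_smul' := fun c f => by
        rw [← map_smul]
        congr 1
        apply Lp.ext
        filter_upwards [(hm (c • f)).coeFn_toLp, (hm f).coeFn_toLp,
          Lp.coeFn_smul c f, Lp.coeFn_smul c ((hm f).toLp f)] with x h1 h2 h4 h5
        rw [h1, h4, RingHom.id_apply, h5, Pi.smul_apply, Pi.smul_apply, h2] }
    ‖φ‖ (fun f => by
      refine (φ.le_opNorm _).trans (mul_le_mul_of_nonneg_left ?_ (norm_nonneg _))
      rw [Lp.norm_toLp, Lp.norm_def]
      exact ENNReal.toReal_mono (Lp.eLpNorm_ne_top f)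
        (eLpNorm_le_eLpNorm_of_exponent_le (by norm_num) (Lp.aestronglyMeasurable f)))
  let g₂ : Lp ℝ 2 μ := (InnerProductSpace.toDual ℝ (Lp ℝ 2 μ)).symm L
  have hset : ∀ (s : Set Ω) (hs : MeasurableSet s), φ (one s hs) = ∫ x in s, g₂ x ∂μ := by
    intro s hs
    have h1 : L (indicatorConstLp 2 hs (measure_ne_top μ s) (1 : ℝ)) = φ (one s hs) := by
      change φ ((hm _).toLp _) = _
      congr 1
      apply Lp.ext
      filter_upwards [(hm (indicatorConstLp 2 hs (measure_ne_top μ s) (1 : ℝ))).coeFn_toLp,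
        indicatorConstLp_coeFn (p := 2) (hs := hs) (hμs := measure_ne_top μ s) (c := (1 : ℝ)),
        indicatorConstLp_coeFn (p := 1) (hs := hs) (hμs := measure_ne_top μ s) (c := (1 : ℝ))]
        with x h1 h2 h3
      rw [h1, h2, one, h3]
    have h2 : L (indicatorConstLp 2 hs (measure_ne_top μ s) (1 : ℝ)) =
        inner ℝ g₂ (indicatorConstLp 2 hs (measure_ne_top μ s) (1 : ℝ)) := by
      rw [← InnerProductSpace.toDual_apply_apply, LinearIsometryEquiv.apply_symm_apply]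
    rw [← h1, h2, real_inner_comm, L2.inner_indicatorConstLp_one]
  have hint : Integrable g₂ μ := memLp_one_iff_integrable.1 (hm g₂)
  have hle : ∀ᵐ x ∂μ, g₂ x ≤ ‖φ‖ := by
    refine ae_le_of_forall_setIntegral_le hint (integrable_const _) fun s hs _ => ?_
    rw [← hset s hs, setIntegral_const, smul_eq_mul, mul_comm, ← one_norm s hs]
    exact (le_abs_self _).trans (φ.le_opNorm _)
  have hge : ∀ᵐ x ∂μ, -‖φ‖ ≤ g₂ x := by
    refine ae_le_of_forall_setIntegral_le (integrable_const _) hint fun s hs _ => ?_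
    rw [← hset s hs, setIntegral_const, smul_eq_mul, mul_neg, mul_comm, ← one_norm s hs]
    exact (abs_le.1 (φ.le_opNorm (one s hs))).1
  let g : Ω → ℝ := fun x => max (-‖φ‖) (min ‖φ‖ (g₂ x))
  have hgm : Measurable g :=
    measurable_const.max (measurable_const.min (Lp.stronglyMeasurable g₂).measurable)
  have hgb : ∀ x, |g x| ≤ ‖φ‖ := by
    intro x
    have := norm_nonneg φ
    rw [abs_le]
    exact ⟨le_max_left _ _, max_le (by linarith) (min_le_left _ _)⟩
  have hgg : ∀ᵐ x ∂μ, g x = g₂ x := by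
    filter_upwards [hle, hge] with x h1 h2
    simp only [g]
    rw [min_eq_right h1, max_eq_right h2]
  obtain ⟨ψ, hψ⟩ := exists_functional (μ := μ) g hgm ‖φ‖ hgb
  have heq : φ = ψ := by
    ext f
    refine Lp.induction (p := 1) ENNReal.one_ne_top (motive := fun f => φ f = ψ f) ?_ ?_ ?_ f
    · intro c s hs hμs
      have h1 : ((Lp.simpleFunc.indicatorConst 1 hs hμs.ne c : Lp.simpleFunc ℝ 1 μ) : Lp ℝ 1 μ) =
          c • one s hs := by
        apply Lp.ext
        rw [Lp.simpleFunc.coe_indicatorConst]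
        filter_upwards [indicatorConstLp_coeFn (p := 1) (hs := hs) (hμs := hμs.ne) (c := c),
          Lp.coeFn_smul c (one s hs : Lp ℝ 1 μ),
          indicatorConstLp_coeFn (p := 1) (hs := hs) (hμs := measure_ne_top μ s) (c := (1 : ℝ))]
          with x h1 h2 h3
        rw [h1, h2, Pi.smul_apply, one, h3]
        by_cases hx : x ∈ s <;> simp [hx]
      rw [h1, map_smul, map_smul, hset s hs, hψ.2.2, int_one g s hs]
      congr 1
      exact setIntegral_congr_ae hs (hgg.mono fun x hx _ => hx.symm)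
    · intro f h hf hh _ h1 h2
      rw [map_add, map_add, h1, h2]
    · exact isClosed_eq φ.continuous ψ.continuous
  exact ⟨g, heq ▸ hψ, hgb⟩

lemma Rep.integrable {φ : StrongDual ℝ (Lp ℝ 1 μ)} {g : Ω → ℝ} (h : Rep φ g) :
    Integrable g μ := by
  obtain ⟨h1, ⟨C, hC⟩, -⟩ := h
  exact Integrable.of_bound h1.aestronglyMeasurable C (Eventually.of_forall hC)

lemma Rep.unique {φ : StrongDual ℝ (Lp ℝ 1 μ)} {g h : Ω → ℝ} (h1 : Rep φ g) (h2 : Rep φ h) :
    g =ᵐ[μ] h := by
  refine h1.integrable.ae_eq_of_forall_setIntegral_eq g h h2.integrable fun s hs _ => ?_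
  rw [← int_one g s hs, ← int_one h s hs, ← h1.2.2, ← h2.2.2]

/-- the character of an ultrafilter -/
lemma exists_char (U : Ultrafilter Ω) (hU : (U : Filter Ω) ≤ ae μ) :
    ∃ δ : StrongDual ℝ (StrongDual ℝ (Lp ℝ 1 μ)),
      ∀ φ g, Rep φ g → Tendsto g U (𝓝 (δ φ)) := by
  have h1 : ∀ φ : StrongDual ℝ (Lp ℝ 1 μ), ∃ c, |c| ≤ ‖φ‖ ∧ ∀ g, Rep φ g → Tendsto g U (𝓝 c) := by
    intro φ
    obtain ⟨g, hg, hb⟩ := exists_rep φ
    have h2 : (Icc (-‖φ‖) ‖φ‖) ∈ U.map g := by
      exact Filter.univ_mem' (f := (U : Filter Ω)) fun x => abs_le.1 (hb x)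
    obtain ⟨c, hc, hc'⟩ := (isCompact_Icc (a := -‖φ‖) (b := ‖φ‖)).ultrafilter_le_nhds' (U.map g) h2
    refine ⟨c, abs_le.2 hc, fun h hh => ?_⟩
    have h3 : Tendsto g U (𝓝 c) := hc'
    exact h3.congr' (hU (hg.unique hh))
  choose c hc1 hc2 using h1
  refine ⟨LinearMap.mkContinuous
    { toFun := c
      map_add' := fun φ ψ => ?_
      map_smul' := fun a φ => ?_ } 1 fun φ => ?_, fun φ g hg => hc2 φ g hg⟩
  · obtain ⟨g, hg, -⟩ := exists_rep φ
    obtain ⟨h, hh, -⟩ := exists_rep ψ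
    exact tendsto_nhds_unique (hc2 _ _ (hg.add hh)) ((hc2 φ g hg).add (hc2 ψ h hh))
  · obtain ⟨g, hg, -⟩ := exists_rep φ
    exact tendsto_nhds_unique (hc2 _ _ (hg.smul a)) ((hc2 φ g hg).const_mul a)
  · rw [one_mul]
    exact hc1 φ

/-- The characters are atoms. -/
lemma add_norm (U : Ultrafilter Ω) (δ : StrongDual ℝ (StrongDual ℝ (Lp ℝ 1 μ)))
    (hδ : ∀ φ g, Rep φ g → Tendsto g U (𝓝 (δ φ)))
    (w : StrongDual ℝ (StrongDual ℝ (Lp ℝ 1 μ))) (S : Set Ω) (hS : MeasurableSet S) (hSU : S ∈ U)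
    (hw : ∀ A ⊆ S, MeasurableSet A → A ∈ U → ∀ η, Rep η (A.indicator fun _ => 1) → 0 ≤ w η)
    (t : ℝ) (ht : 0 ≤ t) : ‖w + t • δ‖ = ‖w‖ + t := by
  classical
  have hδ1 : ‖δ‖ ≤ 1 := by
    refine ContinuousLinearMap.opNorm_le_bound _ zero_le_one fun φ => ?_
    obtain ⟨g, hg, hb⟩ := exists_rep φ
    rw [one_mul]
    exact le_of_tendsto (hδ φ g hg).norm (Eventually.of_forall hb)
  refine norm_add_smul w δ t ht hδ1 ?_
  · · intro φ hφ ε hε
      obtain ⟨g, hg, hb⟩ := exists_rep φ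
      have hg1 : ∀ x, |g x| ≤ 1 := fun x => (hb x).trans hφ
      set c := δ φ with hc
      have hcb : |c| ≤ 1 := by
        have := δ.le_opNorm φ
        rw [Real.norm_eq_abs] at this
        calc |c| ≤ ‖δ‖ * ‖φ‖ := this
          _ ≤ 1 * 1 := mul_le_mul hδ1 hφ (norm_nonneg _) zero_le_one
          _ = 1 := one_mul 1
      have hgc := hδ φ g hg
      set ε' := ε / (‖w‖ + 1) with hε'
      have hε'0 : 0 < ε' := by positivity
      set A : Set Ω := S ∩ {x | |g x - c| < ε'} with hA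
      have hAU : A ∈ U := by
        refine Filter.inter_mem hSU ?_
        exact hgc.eventually (Metric.ball_mem_nhds c hε'0)
      have hAm : MeasurableSet A := hS.inter
        (measurableSet_lt ((hg.1.sub measurable_const).abs) measurable_const)
      -- the modified functional
      have hg'm : Measurable (fun x => if x ∈ A then (1 : ℝ) else g x) :=
        Measurable.ite hAm measurable_const hg.1
      have hg'b : ∀ x, |(if x ∈ A then (1 : ℝ) else g x)| ≤ 1 := by
        intro x; split_ifs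
        · simp
        · exact hg1 x
      obtain ⟨φ', hφ'⟩ := exists_functional (μ := μ) _ hg'm 1 hg'b
      obtain ⟨η, hη⟩ := exists_functional (μ := μ) (A.indicator fun _ => (1 : ℝ))
        (measurable_const.indicator hAm) 1 (fun x => by by_cases hx : x ∈ A <;> simp [hx])
      have hφ'n : ‖φ'‖ ≤ 1 := hφ'.norm_le 1 zero_le_one hg'b
      have hδφ' : δ φ' = 1 := by
        refine tendsto_nhds_unique (hδ φ' _ hφ') ?_
        refine tendsto_const_nhds.congr' ?_
        filter_upwards [hAU] with x hx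
        rw [if_pos hx]
      have hρ := (hφ'.sub hg).sub (hη.smul (1 - c))
      have hρn : ‖(φ' - φ) - (1 - c) • η‖ ≤ ε' := by
        refine hρ.norm_le ε' hε'0.le fun x => ?_
        by_cases hx : x ∈ A
        · simp only [hx, if_true, indicator_of_mem]
          have := hx.2
          rw [mem_ofPred_eq] at this
          rw [show 1 - g x - (1 - c) * 1 = -(g x - c) by ring, abs_neg]
          exact this.le
        · simp [hx, hε'0.le]
      have h1 : w φ' - w φ = (1 - c) * w η + w ((φ' - φ) - (1 - c) • η) := by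
        rw [map_sub, map_sub, map_smul, smul_eq_mul]; ring
      have h2 : 0 ≤ (1 - c) * w η :=
        mul_nonneg (by linarith [(abs_le.1 hcb).2]) (hw A inter_subset_left hAm hAU η hη)
      have h3 : |w ((φ' - φ) - (1 - c) • η)| ≤ ‖w‖ * ε' :=
        (w.le_opNorm _).trans (mul_le_mul_of_nonneg_left hρn (norm_nonneg _))
      have h8 : ‖w‖ * ε' ≤ ε := by
        rw [hε', mul_div_assoc', div_le_iff₀ (by positivity)]
        have : 0 ≤ ‖w‖ := norm_nonneg' w
        nlinarith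
      have h9 := (abs_le.1 h3).1
      exact ⟨φ', hφ'n, hδφ', by linarith⟩

omit [IsProbabilityMeasure μ] in
lemma norm_le_one (w : StrongDual ℝ (StrongDual ℝ (Lp ℝ 1 μ))) (φ : StrongDual ℝ (Lp ℝ 1 μ))
    (hφ : ‖φ‖ ≤ 1) : |w φ| ≤ ‖w‖ :=
  (w.le_opNorm φ).trans (mul_le_of_le_one_right (norm_nonneg' w) hφ)

/-- The bidual of `L₁` fails uniform property (S). -/
lemma bidual_fails (A : Set Ω) (hA : MeasurableSet A) (h1 : μ A ≠ 0) (h2 : μ Aᶜ ≠ 0) :
    ¬ UniformS (StrongDual ℝ (StrongDual ℝ (Lp ℝ 1 μ))) := by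
  classical
  intro H
  obtain ⟨δ0, hδ0, H⟩ := H 1 (1 / 4) (by norm_num) (by norm_num) (by norm_num)
  have hU : ∀ S : Set Ω, MeasurableSet S → μ S ≠ 0 →
      ∃ U : Ultrafilter Ω, (U : Filter Ω) ≤ ae μ ∧ S ∈ U := by
    intro S hS h0
    have : (ae (μ.restrict S)).NeBot := by
      rw [ae_neBot]
      exact fun h => h0 (Measure.restrict_eq_zero.1 h)
    refine ⟨Ultrafilter.of (ae (μ.restrict S)), (Ultrafilter.of_le _).trans ?_, ?_⟩
    · rw [ae_restrict_eq hS]; exact inf_le_left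
    · refine Ultrafilter.of_le (ae (μ.restrict S)) ?_
      rw [ae_restrict_eq hS]
      exact mem_inf_of_right (mem_principal_self S)
  obtain ⟨U, hU1, hU2⟩ := hU A hA h1
  obtain ⟨V, hV1, hV2⟩ := hU Aᶜ hA.compl h2
  obtain ⟨p, hp⟩ := exists_char U hU1
  obtain ⟨q, hq⟩ := exists_char V hV1
  -- values on indicator functions
  have val1 : ∀ (W : Ultrafilter Ω) (r : StrongDual ℝ (StrongDual ℝ (Lp ℝ 1 μ))),
      (∀ φ g, Rep φ g → Tendsto g W (𝓝 (r φ))) → ∀ B : Set Ω, B ∈ W → ∀ η,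
      Rep η (B.indicator fun _ => (1 : ℝ)) → r η = 1 := by
    intro W r hr B hB η hη
    refine tendsto_nhds_unique (hr η _ hη) (tendsto_const_nhds.congr' ?_)
    filter_upwards [hB] with x hx
    rw [indicator_of_mem hx]
  have val0 : ∀ (W : Ultrafilter Ω) (r : StrongDual ℝ (StrongDual ℝ (Lp ℝ 1 μ))),
      (∀ φ g, Rep φ g → Tendsto g W (𝓝 (r φ))) → ∀ B : Set Ω, Bᶜ ∈ W → ∀ η,
      Rep η (B.indicator fun _ => (1 : ℝ)) → r η = 0 := by
    intro W r hr B hB η hη
    refine tendsto_nhds_unique (hr η _ hη) (tendsto_const_nhds.congr' ?_)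
    filter_upwards [hB] with x hx
    rw [indicator_of_notMem hx]
  have hηn : ∀ (B : Set Ω) η, Rep η (B.indicator fun _ => (1 : ℝ)) →
      ‖(η : StrongDual ℝ (Lp ℝ 1 μ))‖ ≤ 1 := fun B η hη =>
    hη.norm_le 1 zero_le_one fun x => by by_cases hx : x ∈ B <;> simp [hx]
  -- the basic computation
  have step : ∀ z : StrongDual ℝ (StrongDual ℝ (Lp ℝ 1 μ)), ‖z‖ ≤ 1 / 4 →
      ‖((1 / 4 : ℝ) • p + (1 / 4 : ℝ) • q + z) + (1 / 2 : ℝ) • p‖ =
        ‖(1 / 4 : ℝ) • p + (1 / 4 : ℝ) • q + z‖ + 1 / 2 ∧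
      ‖((1 / 4 : ℝ) • p + (1 / 4 : ℝ) • q + z) + (1 / 2 : ℝ) • q‖ =
        ‖(1 / 4 : ℝ) • p + (1 / 4 : ℝ) • q + z‖ + 1 / 2 := by
    intro z hz
    constructor
    · refine add_norm U p hp _ A hA hU2 (fun B hB _ hBU η hη => ?_) _ (by norm_num)
      change 0 ≤ (1 / 4 : ℝ) * p η + (1 / 4 : ℝ) * q η + z η
      rw [val1 U p hp B hBU η hη, val0 V q hq B (mem_of_superset hV2 (compl_subset_compl.2 hB)) η hη]
      have := (abs_le.1 (norm_le_one z η (hηn B η hη))).1
      linarith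
    · refine add_norm V q hq _ Aᶜ hA.compl hV2 (fun B hB _ hBV η hη => ?_) _ (by norm_num)
      change 0 ≤ (1 / 4 : ℝ) * p η + (1 / 4 : ℝ) * q η + z η
      rw [val1 V q hq B hBV η hη, val0 U p hp B (mem_of_superset hU2 (by
        intro x hx hxB; exact hB hxB hx)) η hη]
      have := (abs_le.1 (norm_le_one z η (hηn B η hη))).1
      linarith
  have hn0 : ‖(1 / 4 : ℝ) • p + (1 / 4 : ℝ) • q + 0‖ = 1 / 2 := by
    have e1 : ‖(0 : StrongDual ℝ (StrongDual ℝ (Lp ℝ 1 μ))) + (1 / 4 : ℝ) • p‖ =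
        ‖(0 : StrongDual ℝ (StrongDual ℝ (Lp ℝ 1 μ)))‖ + 1 / 4 :=
      add_norm U p hp _ A hA hU2 (fun B _ _ _ η _ => le_rfl) _ (by norm_num)
    have e2 : ‖(1 / 4 : ℝ) • p + (1 / 4 : ℝ) • q‖ = ‖(1 / 4 : ℝ) • p‖ + 1 / 4 := by
      refine add_norm V q hq _ Aᶜ hA.compl hV2 (fun B hB _ hBV η hη => ?_) _ (by norm_num)
      change 0 ≤ (1 / 4 : ℝ) * p η
      rw [val0 U p hp B (mem_of_superset hU2 (by
        intro x hx hxB; exact hB hxB hx)) η hη]
      norm_num
    have e3 : (0 : StrongDual ℝ (StrongDual ℝ (Lp ℝ 1 μ))) + (1 / 4 : ℝ) • p =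
      (1 / 4 : ℝ) • p := zero_add _
    have e4 : ‖(0 : StrongDual ℝ (StrongDual ℝ (Lp ℝ 1 μ)))‖ = 0 := norm_zero'
    rw [e3, e4] at e1
    have e5 : (1 / 4 : ℝ) • p + (1 / 4 : ℝ) • q + 0 = (1 / 4 : ℝ) • p + (1 / 4 : ℝ) • q :=
      add_zero _
    rw [e5, e2, e1]
    norm_num
  obtain ⟨f1, f2⟩ := step 0 (by
    have e4 : ‖(0 : StrongDual ℝ (StrongDual ℝ (Lp ℝ 1 μ)))‖ = 0 := norm_zero'
    rw [e4]; norm_num)
  rw [hn0] at f1 f2
  -- the distance
  have hdist : 1 ≤ ‖((1 / 4 : ℝ) • p + (1 / 4 : ℝ) • q + 0 + (1 / 2 : ℝ) • p) -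
      ((1 / 4 : ℝ) • p + (1 / 4 : ℝ) • q + 0 + (1 / 2 : ℝ) • q)‖ := by
    have hgm : Measurable (fun x => if x ∈ A then (1 : ℝ) else -1) :=
      Measurable.ite hA measurable_const measurable_const
    have hgb : ∀ x, |(if x ∈ A then (1 : ℝ) else -1)| ≤ 1 := by
      intro x; split_ifs <;> simp
    obtain ⟨φ, hφ⟩ := exists_functional (μ := μ) _ hgm 1 hgb
    have e1 : p φ = 1 := by
      refine tendsto_nhds_unique (hp φ _ hφ) (tendsto_const_nhds.congr' ?_)
      filter_upwards [hU2] with x hx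
      rw [if_pos hx]
    have e2 : q φ = -1 := by
      refine tendsto_nhds_unique (hq φ _ hφ) (tendsto_const_nhds.congr' ?_)
      filter_upwards [hV2] with x hx
      rw [if_neg hx]
    have e3 := norm_le_one (((1 / 4 : ℝ) • p + (1 / 4 : ℝ) • q + 0 + (1 / 2 : ℝ) • p) -
      ((1 / 4 : ℝ) • p + (1 / 4 : ℝ) • q + 0 + (1 / 2 : ℝ) • q)) φ
      (hφ.norm_le 1 zero_le_one hgb)
    have e4 : (((1 / 4 : ℝ) • p + (1 / 4 : ℝ) • q + 0 + (1 / 2 : ℝ) • p) -
      ((1 / 4 : ℝ) • p + (1 / 4 : ℝ) • q + 0 + (1 / 2 : ℝ) • q)) φ = 1 := by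
      change ((1 / 4 : ℝ) * p φ + (1 / 4 : ℝ) * q φ + 0 + (1 / 2 : ℝ) * p φ) -
        ((1 / 4 : ℝ) * p φ + (1 / 4 : ℝ) * q φ + 0 + (1 / 2 : ℝ) * q φ) = 1
      rw [e1, e2]; norm_num
    rw [e4] at e3
    simpa using e3
  obtain ⟨z, hz, hz'⟩ := H _ _ (f1.trans (by norm_num)) (f2.trans (by norm_num)) hdist
  obtain ⟨g1, g2⟩ := step z hz
  have e1 : (1 / 4 : ℝ) • p + (1 / 4 : ℝ) • q + 0 + (1 / 2 : ℝ) • p + z =
      ((1 / 4 : ℝ) • p + (1 / 4 : ℝ) • q + z) + (1 / 2 : ℝ) • p := by abel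
  have e2 : (1 / 4 : ℝ) • p + (1 / 4 : ℝ) • q + 0 + (1 / 2 : ℝ) • q + z =
      ((1 / 4 : ℝ) • p + (1 / 4 : ℝ) • q + z) + (1 / 2 : ℝ) • q := by abel
  rw [e1, e2, g1, g2, sub_self, abs_zero] at hz'
  linarith

end Dual

/-! ### The space `L₁(0,1)` -/

/-- Lebesgue measure on `(0,1]` -/
noncomputable abbrev leb : Measure ℝ := volume.restrict (Ioc 0 1)

instance : IsProbabilityMeasure leb := ⟨by simp [leb]⟩

lemma norm_eq (f : Lp ℝ 1 leb) : ‖f‖ = ∫ x in (0 : ℝ)..1, |f x| := by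
  rw [L1.norm_eq_integral_norm, intervalIntegral.integral_of_le zero_le_one]
  rfl

lemma intOn (f : Lp ℝ 1 leb) : IntegrableOn f (Ioc 0 1) volume := L1.integrable_coeFn f

/-- `L₁(0,1)` has uniform property (S). -/
lemma l1_uniform : UniformS (Lp ℝ 1 leb) := by
  intro d a hd _ ha
  obtain ⟨N, hN⟩ := exists_nat_gt (1 / a)
  have hN0 : (0 : ℝ) < N := lt_trans (by positivity) hN
  have hN1 : 0 < N := by exact_mod_cast hN0
  refine ⟨d / N, by positivity, fun x y hx hy hxy => ?_⟩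
  have hII : ∀ g : ℝ → ℝ, IntegrableOn g (Ioc 0 1) volume → ∀ s t : ℝ, 0 ≤ s → s ≤ t → t ≤ 1 →
      IntervalIntegrable g volume s t := by
    intro g hg s t hs hst ht
    rw [intervalIntegrable_iff_integrableOn_Ioc_of_le hst]
    exact hg.mono_set (Ioc_subset_Ioc hs ht)
  set f : ℝ → ℝ := fun s => |y s| with hf
  have hfI : IntegrableOn f (Ioc 0 1) volume := (intOn y).abs
  set u : ℝ → ℝ := fun s => |x s - y s| - |x s| + |y s| with hu
  have huI : IntegrableOn u (Ioc 0 1) volume :=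
    (((intOn x).sub (intOn y)).abs.sub (intOn x).abs).add (intOn y).abs
  have hu0 : ∀ s, 0 ≤ u s := by
    intro s
    have := abs_add_le (x s - y s) (y s)
    rw [sub_add_cancel] at this
    simp only [hu]; linarith
  set F : ℝ → ℝ := fun t => ∫ s in (0 : ℝ)..t, f s with hF
  have hFc : ContinuousOn F (Icc 0 1) := by
    have h1 : IntegrableOn f (uIcc 0 1) volume := by
      rw [uIcc_of_le zero_le_one, integrableOn_Icc_iff_integrableOn_Ioc]; exact hfI
    have := intervalIntegral.continuousOn_primitive_interval h1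
    rwa [uIcc_of_le zero_le_one] at this
  have hF0 : F 0 = 0 := by simp [hF]
  have hF1 : F 1 = 1 := by rw [hF]; simp only [hf]; rw [← norm_eq, hy]
  have hFadd : ∀ s t, 0 ≤ s → s ≤ t → t ≤ 1 → F t - F s = ∫ r in s..t, f r := by
    intro s t hs hst ht
    simp only [hF]
    rw [intervalIntegral.integral_interval_sub_left (hII f hfI 0 t le_rfl (hs.trans hst) ht)
      (hII f hfI 0 s le_rfl hs (hst.trans ht))]
  have hFmono : ∀ s t, 0 ≤ s → s ≤ t → t ≤ 1 → F s ≤ F t := by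
    intro s t hs hst ht
    have h1 := hFadd s t hs hst ht
    have h2 : 0 ≤ ∫ r in s..t, f r :=
      intervalIntegral.integral_nonneg hst fun r _ => abs_nonneg _
    linarith
  -- the cutting points
  have hcut : ∀ i : ℕ, ∃ t : ℝ, t ∈ Icc (0 : ℝ) 1 ∧ (i ≤ N → F t = i / N) := by
    intro i
    by_cases hi : i ≤ N
    · have h1 : (i : ℝ) / N ∈ Icc (F 0) (F 1) := by
        rw [hF0, hF1]
        refine ⟨by positivity, ?_⟩
        rw [div_le_one hN0]; exact_mod_cast hi
      obtain ⟨t, ht, ht'⟩ := intermediate_value_Icc zero_le_one hFc h1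
      exact ⟨t, ht, fun _ => ht'⟩
    · exact ⟨0, by simp, fun h => absurd h hi⟩
  choose t0 ht0 ht0' using hcut
  set t : ℕ → ℝ := fun i => if i = 0 then 0 else if i = N then 1 else t0 i with ht
  have htI : ∀ i, t i ∈ Icc (0 : ℝ) 1 := by
    intro i; simp only [ht]; split_ifs
    · simp
    · simp
    · exact ht0 i
  have htF : ∀ i ≤ N, F (t i) = i / N := by
    intro i hi
    simp only [ht]; split_ifs with h1 h2
    · rw [hF0, h1]; simp
    · rw [hF1, h2, div_self hN0.ne']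
    · exact ht0' i hi
  have htm : ∀ i < N, t i ≤ t (i + 1) := by
    intro i hi
    by_contra hcon
    push Not at hcon
    have h1 := hFmono (t (i + 1)) (t i) (htI _).1 hcon.le (htI _).2
    rw [htF i hi.le, htF (i + 1) hi, div_le_div_iff_of_pos_right hN0] at h1
    push_cast at h1
    linarith
  have hsum : ∑ i ∈ Finset.range N, ∫ s in (t i)..(t (i + 1)), u s = ∫ s in (0 : ℝ)..1, u s := by
    have h1 := intervalIntegral.sum_integral_adjacent_intervals (μ := volume) (f := u) (a := t)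
      (n := N) fun k hk => hII u huI _ _ (htI k).1 (htm k hk) (htI _).2
    rw [h1]
    have e1 : t 0 = 0 := by simp [ht]
    have e2 : t N = 1 := by simp [ht, hN1.ne']
    rw [e1, e2]
  have hutot : d ≤ ∫ s in (0 : ℝ)..1, u s := by
    have e1 : ∫ s in (0 : ℝ)..1, u s = ‖x - y‖ := by
      have i1 : IntervalIntegrable (fun s => |x s - y s|) volume 0 1 :=
        hII _ ((intOn x).sub (intOn y)).abs 0 1 le_rfl zero_le_one le_rfl
      have i2 : IntervalIntegrable (fun s => |x s|) volume 0 1 :=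
        hII _ (intOn x).abs 0 1 le_rfl zero_le_one le_rfl
      have i3 : IntervalIntegrable (fun s => |y s|) volume 0 1 :=
        hII _ (intOn y).abs 0 1 le_rfl zero_le_one le_rfl
      have e2 : ∫ s in (0 : ℝ)..1, |x s - y s| = ‖x - y‖ := by
        rw [norm_eq, intervalIntegral.integral_of_le zero_le_one,
          intervalIntegral.integral_of_le zero_le_one]
        refine integral_congr_ae ?_
        filter_upwards [Lp.coeFn_sub x y] with s hs
        rw [hs, Pi.sub_apply]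
      simp only [hu]
      rw [intervalIntegral.integral_add (i1.sub i2) i3, intervalIntegral.integral_sub i1 i2, e2,
        ← norm_eq, ← norm_eq, hx, hy]
      ring
    rw [e1]; exact hxy
  obtain ⟨i, hi, hi'⟩ : ∃ i ∈ Finset.range N, d / N ≤ ∫ s in (t i)..(t (i + 1)), u s := by
    by_contra hcon
    push Not at hcon
    have h1 : ∑ i ∈ Finset.range N, ∫ s in (t i)..(t (i + 1)), u s < ∑ i ∈ Finset.range N, d / N :=
      Finset.sum_lt_sum_of_nonempty (Finset.nonempty_range_iff.2 hN1.ne') hcon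
    rw [hsum, Finset.sum_const, Finset.card_range, nsmul_eq_mul, mul_div_cancel₀ _ hN0.ne'] at h1
    linarith
  have hiN : i < N := Finset.mem_range.1 hi
  set B : Set ℝ := Ioc (t i) (t (i + 1)) with hB
  have hBm : MeasurableSet B := measurableSet_Ioc
  have hBsub : B ⊆ Ioc 0 1 := Ioc_subset_Ioc (htI i).1 (htI (i + 1)).2
  have hmem : MemLp (fun s => -(B.indicator y s)) 1 leb := ((Lp.memLp y).indicator hBm).neg
  have hBint : ∀ g : ℝ → ℝ, ∫ s, B.indicator g s ∂leb = ∫ s in (t i)..(t (i + 1)), g s := by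
    intro g
    rw [integral_indicator hBm, intervalIntegral.integral_of_le (htm i hiN), Measure.restrict_restrict
      hBm, inter_eq_left.2 hBsub]
  refine ⟨hmem.toLp _, ?_, ?_⟩
  · rw [L1.norm_eq_integral_norm]
    have e1 : ∫ s, ‖hmem.toLp (fun s => -(B.indicator y s)) s‖ ∂leb =
        ∫ s, B.indicator f s ∂leb := by
      refine integral_congr_ae ?_
      filter_upwards [hmem.coeFn_toLp] with s hs
      rw [hs, norm_neg]
      by_cases h : s ∈ B <;> simp [h, hf]
    rw [e1, hBint, ← hFadd _ _ (htI i).1 (htm i hiN) (htI _).2, htF i hiN.le, htF (i + 1) hiN]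
    push_cast
    rw [← sub_div, add_sub_cancel_left]
    rw [div_le_iff₀ hN0]
    rw [div_lt_iff₀ ha] at hN
    linarith
  · refine le_trans ?_ (le_abs_self _)
    have e1 : ‖x + hmem.toLp _‖ = ∫ s, |x s - B.indicator y s| ∂leb := by
      rw [L1.norm_eq_integral_norm]
      refine integral_congr_ae ?_
      filter_upwards [hmem.coeFn_toLp, Lp.coeFn_add x (hmem.toLp _)] with s h1 h2
      rw [h2, Pi.add_apply, h1, Real.norm_eq_abs, ← sub_eq_add_neg]
    have e2 : ‖y + hmem.toLp _‖ = ∫ s, |y s - B.indicator y s| ∂leb := by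
      rw [L1.norm_eq_integral_norm]
      refine integral_congr_ae ?_
      filter_upwards [hmem.coeFn_toLp, Lp.coeFn_add y (hmem.toLp _)] with s h1 h2
      rw [h2, Pi.add_apply, h1, Real.norm_eq_abs, ← sub_eq_add_neg]
    have hyB : Integrable (B.indicator y) leb := (L1.integrable_coeFn y).indicator hBm
    have j1 : Integrable (fun s => |x s - B.indicator y s|) leb :=
      ((L1.integrable_coeFn x).sub hyB).abs
    have j2 : Integrable (fun s => |y s - B.indicator y s|) leb :=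
      ((L1.integrable_coeFn y).sub hyB).abs
    have j3 : Integrable (fun s => |x s| - |y s|) leb :=
      (L1.integrable_coeFn x).abs.sub (L1.integrable_coeFn y).abs
    have j4 : Integrable (B.indicator u) leb := Integrable.indicator huI hBm
    rw [e1, e2, ← integral_sub j1 j2]
    have e3 : (fun s => |x s - B.indicator y s| - |y s - B.indicator y s|) =
        fun s => (|x s| - |y s|) + B.indicator u s := by
      ext s
      by_cases h : s ∈ B
      · simp only [h, indicator_of_mem, sub_self, abs_zero, hu]; ring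
      · simp [h]
    rw [e3, integral_add j3 j4, hBint, integral_sub (L1.integrable_coeFn x).abs
      (L1.integrable_coeFn y).abs]
    have e4 : ∫ s, |x s| ∂leb = 1 := by rw [← hx, L1.norm_eq_integral_norm]; rfl
    have e5 : ∫ s, |y s| ∂leb = 1 := by rw [← hy, L1.norm_eq_integral_norm]; rfl
    rw [e4, e5]
    linarith

/-- There is a Banach space with uniform property (S) whose bidual fails it. -/
theorem result : ∃ (X : Type) (_ : NormedAddCommGroup X) (_ : NormedSpace ℝ X)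
    (_ : CompleteSpace X), UniformS X ∧ ¬ UniformS (StrongDual ℝ (StrongDual ℝ X)) := by
  refine ⟨Lp ℝ 1 leb, inferInstance, inferInstance, inferInstance, l1_uniform, ?_⟩
  refine bidual_fails (Ioc 0 (1 / 2)) measurableSet_Ioc ?_ ?_
  · rw [leb, Measure.restrict_apply measurableSet_Ioc,
      inter_eq_left.2 (Ioc_subset_Ioc le_rfl (by norm_num))]
    simp
  · rw [leb, Measure.restrict_apply measurableSet_Ioc.compl]
    have : Ioc (1 / 2 : ℝ) 1 ⊆ (Ioc (0 : ℝ) (1 / 2))ᶜ ∩ Ioc 0 1 := by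
      intro s hs
      refine ⟨fun h => absurd h.2 (not_le.2 hs.1), lt_trans (by norm_num) hs.1, hs.2⟩
    intro h
    have h1 := measure_mono_null this h
    rw [Real.volume_Ioc] at h1
    norm_num at h1

end Pool.Agent.Results.MP_973dba_an.BidualFails
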